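import Mathlib
import Pool.Agent.H27.Filt

set_option autoImplicit false

namespace Pool.Agent.Results.MP_78c350_an.Neither

/-- A free filter: proper and containing every cofinite set. -/
def Free (F : Filter ℕ) : Prop := ∅ ∉ F ∧ ∀ A : Set ℕ, Aᶜ.Finite → A ∈ F

/-- `F` is poor: every family of sets from the grill (sets whose complement is not in `F`) whose
pairwise intersections lie in the ideal (complement in `F`) is countable. -/
def Poor (F : Filter ℕ) : Prop :=
  ∀ 𝒜 : Set (Set ℕ), (∀ A ∈ 𝒜, Aᶜ ∉ F) → 𝒜.Pairwise (fun A B => (A ∩ B)ᶜ ∈ F) → 𝒜.Countable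

/-- `F` is conglomerated: there are pairwise disjoint sets `D n` of the ideal such that every
union of infinitely many of them lies in the grill. -/
def Conglomerated (F : Filter ℕ) : Prop :=
  ∃ D : ℕ → Set ℕ, Pairwise (fun m n => Disjoint (D m) (D n)) ∧ (∀ n, (D n)ᶜ ∈ F) ∧
    ∀ M : Set ℕ, M.Infinite → (⋃ n ∈ M, D n)ᶜ ∉ F

theorem result : ∃ F : Filter ℕ, Free F ∧ ¬ Poor F ∧ ¬ Conglomerated F := by
  obtain ⟨F, h1, h2, ⟨𝒜, p, q, r⟩, h4⟩ := Pool.Agent.H27.Filt.exists_neither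
  refine ⟨F, ⟨Filter.empty_notMem F, fun A hA => h2 hA⟩, fun h => r (h 𝒜 p q), ?_⟩
  rintro ⟨D, a, b, c⟩
  obtain ⟨M, hM, h⟩ := h4 D a b
  exact c M hM h

end Pool.Agent.Results.MP_78c350_an.Neither
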